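import Pool.Agent.Lead.TB.Defs

/-!
# Project TB, TB-K: heavy symbols
-/

set_option autoImplicit false

namespace Pool.Agent.Lead.TB

open Finset

/-- Some `c` elements of a set carry at least their share of the sum. -/
theorem h9tb_share {α : Type} [DecidableEq α] (w : α → ℕ) (c : ℕ) :
    ∀ (d : ℕ) (U : Finset α), U.card = c + d →
      ∃ S : Finset α, S ⊆ U ∧ S.card = c ∧ c * ∑ x ∈ U, w x ≤ (c + d) * ∑ x ∈ S, w x := by
  intro d
  induction d with
  | zero =>
    intro U hU
    exact ⟨U, Subset.refl _, by simpa using hU, le_refl _⟩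
  | succ d ih =>
    intro U hU
    have hne : U.Nonempty := by
      rw [← Finset.card_pos]
      omega
    obtain ⟨a, haU, ha⟩ := U.exists_min_image w hne
    obtain ⟨S, hSU, hSc, hS⟩ := ih (U.erase a) (by
      rw [Finset.card_erase_of_mem haU]
      omega)
    have hSU' : S ⊆ U := hSU.trans (Finset.erase_subset _ _)
    refine ⟨S, hSU', hSc, ?_⟩
    have h1 : S.card • w a ≤ ∑ x ∈ S, w x :=
      Finset.card_nsmul_le_sum S w (w a) fun x hx => ha x (hSU' hx)
    rw [hSc, smul_eq_mul] at h1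
    have h2 : ∑ x ∈ U, w x = ∑ x ∈ U.erase a, w x + w a :=
      (Finset.sum_erase_add U w haU).symm
    rw [h2]
    calc c * (∑ x ∈ U.erase a, w x + w a) = c * ∑ x ∈ U.erase a, w x + c * w a := by ring
      _ ≤ (c + d) * ∑ x ∈ S, w x + ∑ x ∈ S, w x := add_le_add hS h1
      _ = (c + (d + 1)) * ∑ x ∈ S, w x := by ring

/-- Every row meets every column exactly once. -/
theorem h9tb_row {n : ℕ} (σ : Fin n → Equiv.Perm (Fin n)) (hσ : σ ∈ ls n) (r : Fin n)
    (T : Finset (Fin n)) : (univ.filter fun s => σ s r ∈ T).card = T.card := by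
  have hinj : Function.Injective fun s => σ s r := by
    intro s t hst
    by_contra hne
    have h := hσ
    simp only [ls, fac, Finset.mem_filter, Finset.mem_univ, true_and] at h
    exact h.2 s t hne r hst
  have hbij : Function.Bijective fun s => σ s r :=
    (Finite.injective_iff_bijective).1 hinj
  refine Finset.card_bij (fun s _ => σ s r) ?_ ?_ ?_
  · intro s hs
    simpa using hs
  · intro s _ t _ hst
    exact hinj hst
  · intro c hc
    obtain ⟨s, hs⟩ := hbij.2 c
    refine ⟨s, ?_, hs⟩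
    simp only [Finset.mem_filter, Finset.mem_univ, true_and]
    have : σ s r = c := hs
    rw [this]
    exact hc

theorem h9tb_total {n : ℕ} (σ : Fin n → Equiv.Perm (Fin n)) (hσ : σ ∈ ls n)
    (T₁ T₂ : Finset (Fin n)) : cnt σ T₁ T₂ univ = T₁.card * T₂.card := by
  unfold cnt
  simp only [Finset.card_filter]
  rw [Finset.sum_comm]
  have : ∀ r ∈ T₁, ∑ s : Fin n, (if σ s r ∈ T₂ then 1 else 0) = T₂.card := by
    intro r _
    rw [← h9tb_row σ hσ r T₂, Finset.card_filter]
  rw [Finset.sum_congr rfl this, Finset.sum_const, smul_eq_mul]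

theorem heavy {n c : ℕ} (σ : Fin n → Equiv.Perm (Fin n)) (hσ : σ ∈ ls n)
    (T₁ T₂ T₃ : Finset (Fin n)) (h3 : T₃.card = c) (hc : 2 * c ≤ n) (h0 : cnt σ T₁ T₂ T₃ = 0) :
    ∃ S : Finset (Fin n), S.card = c ∧ Disjoint T₃ S ∧
      ((T₁.card : ℝ) * T₂.card * c) / n ≤ (cnt σ T₁ T₂ S : ℝ) := by
  have hcard : (T₃ᶜ).card = c + (n - 2 * c) := by
    rw [Finset.card_compl, Fintype.card_fin, h3]
    omega
  obtain ⟨S, hS, hSc, h⟩ :=
    h9tb_share (fun s => (T₁.filter fun r => σ s r ∈ T₂).card) c (n - 2 * c) T₃ᶜ hcard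
  refine ⟨S, hSc, ?_, ?_⟩
  · rw [Finset.disjoint_left]
    intro x hx hxS
    exact (Finset.mem_compl.1 (hS hxS)) hx
  · have htot : ∑ s ∈ T₃ᶜ, (T₁.filter fun r => σ s r ∈ T₂).card = T₁.card * T₂.card := by
      have h1 := h9tb_total σ hσ T₁ T₂
      unfold cnt at h1 h0
      rw [← Finset.sum_add_sum_compl T₃, h0, zero_add] at h1
      exact h1
    rw [htot] at h
    have h' : c * (T₁.card * T₂.card) ≤ n * cnt σ T₁ T₂ S := by
      refine h.trans ?_
      unfold cnt
      exact Nat.mul_le_mul_right _ (by omega)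
    rcases Nat.eq_zero_or_pos n with hn | hn
    · subst hn
      simp
    · rw [div_le_iff₀ (by exact_mod_cast hn)]
      have h2 : ((c * (T₁.card * T₂.card) : ℕ) : ℝ) ≤ ((n * cnt σ T₁ T₂ S : ℕ) : ℝ) := by
        exact_mod_cast h'
      push_cast at h2
      linarith

end Pool.Agent.Lead.TB
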